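import Pool.Agent.Lib.MP_3ee548_nt.RS.Iface

/-!
# Module MOM2 of the RS board (MP_3ee548_nt)
-/

set_option autoImplicit false

open scoped BigOperators
open Classical

namespace Pool.Agent.Lib.MP_3ee548_nt.RS.H04

theorem e_add (x y : ℝ) : e (x + y) = e x * e y := by
  unfold e
  rw [← Complex.exp_add]
  congr 1
  push_cast
  ring

theorem e_zero : e 0 = 1 := by
  unfold e
  simp

theorem e_sum {ι : Type} (s : Finset ι) (f : ι → ℝ) : e (∑ i ∈ s, f i) = ∏ i ∈ s, e (f i) := by
  classical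
  induction s using Finset.induction_on with
  | empty => simp [e_zero]
  | insert a s ha ih => rw [Finset.sum_insert ha, Finset.prod_insert ha, e_add, ih]

theorem continuous_e : Continuous e := by
  unfold e
  fun_prop

theorem pow_sum_eq (r n : ℕ) (t : ℝ) :
    (∑ m ∈ I n, e (t * sqf m)) ^ r = ∑ x ∈ IV r n, e (t * sig r x) := by
  have h := Finset.prod_univ_sum (fun _ : Fin r => I n) (fun _ m => e (t * sqf m))
  rw [Finset.prod_const, Finset.card_univ, Fintype.card_fin] at h
  rw [h]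
  unfold IV
  refine Finset.sum_congr rfl fun x _ => ?_
  unfold sig
  rw [Finset.mul_sum, e_sum]
  rfl

theorem mom2 (h : Pos2Statement) : Mom2Statement := by
  obtain ⟨C, hC, hp⟩ := h
  refine ⟨C, hC, fun r n T hT => ?_⟩
  have h1 := hp (Fin r → ℕ) (sig r) (fun _ => (1 : ℂ)) (IV r n) T hT (fun _ _ => by simp)
  have hcont : Continuous (fun t : ℝ => ‖∑ m ∈ I n, e (t * sqf m)‖ ^ (2 * r)) := by
    have := continuous_e
    fun_prop
  have heq : (fun t : ℝ => ‖∑ m ∈ I n, e (t * sqf m)‖ ^ (2 * r))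
      = fun t : ℝ => ‖∑ x ∈ IV r n, (1 : ℂ) * e (t * sig r x)‖ ^ 2 := by
    funext t
    simp only [one_mul]
    rw [← pow_sum_eq, norm_pow, ← pow_mul, mul_comm]
  have h2 : ∫ t in (0 : ℝ)..T, ‖∑ m ∈ I n, e (t * sqf m)‖ ^ (2 * r)
      ≤ ∫ t in (-T)..T, ‖∑ m ∈ I n, e (t * sqf m)‖ ^ (2 * r) := by
    refine intervalIntegral.integral_mono_interval (by linarith) hT.le le_rfl ?_
      (hcont.intervalIntegrable _ _)
    exact Filter.Eventually.of_forall fun t => by positivity
  refine h2.trans ?_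
  rw [heq]
  exact h1

end Pool.Agent.Lib.MP_3ee548_nt.RS.H04
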